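import Pool.Agent.Lib_helper69.HM.G2
import Pool.Agent.Lib_helper69.HM.M3
import Pool.Agent.Lib_helper69.HM.S1

open MeasureTheory Finset
open scoped ENNReal

namespace Pool.Agent.HM

variable {ρ : ℝ → ℝ} {m : ℝ}

theorem S2_tr_cont (L : ℝ) : Continuous (tr L) := by
  unfold tr
  fun_prop

theorem S2_tr_mono (L : ℝ) : Monotone (tr L) := by
  intro s t h
  unfold tr
  exact max_le_max le_rfl (min_le_min h le_rfl)

theorem S2_tr_abs {L : ℝ} (hL : 0 ≤ L) (t : ℝ) : |tr L t| ≤ L := by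
  unfold tr
  rw [abs_le]
  exact ⟨le_max_left _ _, max_le (by linarith) (min_le_right _ _)⟩

theorem S2_tr_lip (L s t : ℝ) : |tr L s - tr L t| ≤ |s - t| := by
  unfold tr
  calc |max (-L) (min s L) - max (-L) (min t L)| ≤ |min s L - min t L| := by
        have := abs_max_sub_max_le_abs (min s L) (min t L) (-L)
        rwa [max_comm (min s L), max_comm (min t L)] at this
    _ ≤ |s - t| := by
        rw [abs_le]
        rcases le_total s L with h1 | h1 <;> rcases le_total t L with h2 | h2 <;>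
          rcases le_total s t with h3 | h3 <;>
          simp only [min_eq_left h1, min_eq_left h2, min_eq_right h1, min_eq_right h2] <;>
          simp only [abs_of_nonneg, abs_of_nonpos, sub_nonneg, sub_nonpos, h3] <;>
          constructor <;> linarith

theorem S2_meas (L : ℝ) (N : ℕ) (x : Tor N) : Measurable (fun f : Tor N → ℝ => tr L (f x)) :=
  (S2_tr_cont L).measurable.comp (measurable_pi_apply x)

theorem S2_meas2 (L : ℝ) (N : ℕ) (x y : Tor N) :
    Measurable (fun f : Tor N → ℝ => tr L (f x) * tr L (f y)) :=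
  (S2_meas L N x).mul (S2_meas L N y)

theorem S2_int (hρ : EdgeWeight ρ) (hm : 0 < m) {L : ℝ} (hL : 0 ≤ L) (N : ℕ) (k : Bool)
    (x : Tor N) : Integrable (fun f : Tor N → ℝ => tr L (f x)) (muT ρ m N k) := by
  have := muT_prob hρ hm N k
  exact Integrable.of_bound (S2_meas L N x).aestronglyMeasurable L
    (Filter.Eventually.of_forall fun f => S2_tr_abs hL _)

theorem S2_int2 (hρ : EdgeWeight ρ) (hm : 0 < m) {L : ℝ} (hL : 0 ≤ L) (N : ℕ) (k : Bool)
    (x y : Tor N) : Integrable (fun f : Tor N → ℝ => tr L (f x) * tr L (f y)) (muT ρ m N k) := by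
  have := muT_prob hρ hm N k
  refine Integrable.of_bound ((S2_meas L N x).mul (S2_meas L N y)).aestronglyMeasurable (L * L)
    (Filter.Eventually.of_forall fun f => ?_)
  rw [Real.norm_eq_abs, abs_mul]
  exact mul_le_mul (S2_tr_abs hL _) (S2_tr_abs hL _) (abs_nonneg _) hL

theorem S2_nonneg (hρ : EdgeWeight ρ) (hm : 0 < m) {L : ℝ} (hL : 0 ≤ L) (N : ℕ) (k : Bool)
    (y : Tor N) : 0 ≤ ∫ f, tr L (f 0) * tr L (f y) ∂muT ρ m N k := by
  have h0 : lm univ (wt ρ m (stpT N k) univ) 0 ≠ 0 := by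
    have := lm_wt_pos_const hρ m (stpT N k) univ 0
    exact this.ne'
  have h1 : lm univ (wt ρ m (stpT N k) univ) 0 ≠ ∞ := (lm_wt_lt_top hρ hm (stpT N k) univ 0).ne
  have h2 := fkg_real (nice_wt hρ m (stpT N k) univ) univ 0 h0 h1 (S2_meas L N 0) (S2_meas L N y)
    (fun f g h => S2_tr_mono L (h 0)) (fun f g h => S2_tr_mono L (h y))
    (B := L) (fun f => S2_tr_abs hL _) (S2_int hρ hm hL N k y)
  have h3 := muT_tr_mean hρ hm L hL N k 0
  unfold muT at h3
  rw [h3, zero_mul] at h2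
  exact h2

theorem dN_nonneg (hρ : EdgeWeight ρ) (hm : 0 < m) {L : ℝ} (hL : 0 ≤ L) (N : ℕ) (k : Bool)
    (x : ℤ × ℤ) : 0 ≤ dN ρ m L N k x :=
  S2_nonneg hρ hm hL N k _

theorem dN_le (hρ : EdgeWeight ρ) (hm : 0 < m) {L : ℝ} (hL : 0 ≤ L) (N : ℕ) (k : Bool)
    (x : ℤ × ℤ) : dN ρ m L N k x ≤ L ^ 2 := by
  have := muT_prob hρ hm N k
  unfold dN
  have h1 : ∫ f, tr L (f 0) * tr L (f (proj N k x)) ∂muT ρ m N k ≤ ∫ _f, L ^ 2 ∂muT ρ m N k := by
    refine integral_mono (S2_int2 hρ hm hL N k _ _) (integrable_const _) fun f => ?_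
    show tr L (f 0) * tr L (f (proj N k x)) ≤ L ^ 2
    rw [pow_two]
    refine (le_abs_self _).trans ?_
    rw [abs_mul]
    exact mul_le_mul (S2_tr_abs hL _) (S2_tr_abs hL _) (abs_nonneg _) hL
  rw [integral_const] at h1
  simpa using h1

/-- finite sums, if the torus is large -/
theorem dN_sum_le (hρ : EdgeWeight ρ) (hm : 0 < m) {L : ℝ} (hL : 0 ≤ L) {N n : ℕ} (k : Bool)
    (h : 2 * n ≤ N) {A : Finset (ℤ × ℤ)} (hA : A ⊆ box n) :
    ∑ x ∈ A, dN ρ m L N k x ≤ 1 / m ^ 2 := by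
  classical
  have hinj : Set.InjOn (proj N k) (A : Set (ℤ × ℤ)) :=
    (proj_inj h k).mono (Finset.coe_subset.2 hA)
  have h1 : ∑ x ∈ A, dN ρ m L N k x
      = ∑ y ∈ A.image (proj N k), ∫ f, tr L (f 0) * tr L (f y) ∂muT ρ m N k := by
    rw [Finset.sum_image hinj]
    rfl
  rw [h1]
  refine (Finset.sum_le_sum_of_subset_of_nonneg (Finset.subset_univ _) fun y _ _ =>
    S2_nonneg hρ hm hL N k y).trans ?_
  exact sum_tr_le hρ hm hL N k

theorem S2_proj_sub (N : ℕ) (k : Bool) (x y : ℤ × ℤ) :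
    proj N k (x - y) = proj N k x - proj N k y := by
  have h := proj_add N k (x - y) y
  rw [sub_add_cancel] at h
  rw [h, add_sub_cancel_right]

/-- translation invariance -/
theorem dN_two (hρ : EdgeWeight ρ) (hm : 0 < m) {L : ℝ} (hL : 0 ≤ L) (N : ℕ) (k : Bool)
    (x y : ℤ × ℤ) :
    ∫ f, tr L (f (proj N k x)) * tr L (f (proj N k y)) ∂muT ρ m N k =
      dN ρ m L N k (x - y) := by
  have hT : Measurable (fun (f : Tor N → ℝ) (z : Tor N) => f (z + (-proj N k y))) :=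
    measurable_pi_lambda _ fun z => measurable_pi_apply _
  conv_lhs => rw [← muT_trans hρ N k (-proj N k y)]
  rw [integral_map hT.aemeasurable (S2_meas2 L N _ _).aestronglyMeasurable]
  unfold dN
  rw [S2_proj_sub]
  refine integral_congr_ae (Filter.Eventually.of_forall fun f => ?_)
  show tr L (f (proj N k x + -proj N k y)) * tr L (f (proj N k y + -proj N k y))
    = tr L (f 0) * tr L (f (proj N k x - proj N k y))
  rw [add_neg_cancel, ← sub_eq_add_neg, mul_comm]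

theorem S2_proj_false (N : ℕ) (x : ℤ × ℤ) :
    proj N false x = ((x.1 : ZMod (2 * N + 2)), (x.2 : ZMod (2 * N + 2))) := by
  unfold proj stpT
  ext <;> simp

theorem dN_refl (hρ : EdgeWeight ρ) (hm : 0 < m) {L : ℝ} (hL : 0 ≤ L) (N : ℕ)
    (x : ℤ × ℤ) : dN ρ m L N false (-x.1, x.2) = dN ρ m L N false x := by
  have hT : Measurable (fun (f : Tor N → ℝ) (z : Tor N) => f (-z.1, z.2)) :=
    measurable_pi_lambda _ fun z => measurable_pi_apply _
  unfold dN
  conv_rhs => rw [← muT_refl hρ N false]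
  rw [integral_map hT.aemeasurable (S2_meas2 L N _ _).aestronglyMeasurable]
  refine integral_congr_ae (Filter.Eventually.of_forall fun f => ?_)
  show tr L (f 0) * tr L (f (proj N false (-x.1, x.2)))
    = tr L (f (-(0 : Tor N).1, (0 : Tor N).2)) * tr L (f (-(proj N false x).1, (proj N false x).2))
  have h0 : ((-(0 : Tor N).1, (0 : Tor N).2) : Tor N) = 0 := by ext <;> simp
  rw [h0, S2_proj_false, S2_proj_false]
  simp

theorem dN_swap (hρ : EdgeWeight ρ) (hm : 0 < m) {L : ℝ} (hL : 0 ≤ L) (N : ℕ)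
    (x : ℤ × ℤ) : dN ρ m L N false (x.2, x.1) = dN ρ m L N false x := by
  have hT : Measurable (fun (f : Tor N → ℝ) (z : Tor N) => f (z.2, z.1)) :=
    measurable_pi_lambda _ fun z => measurable_pi_apply _
  unfold dN
  conv_rhs => rw [← muT_swap (m := m) hρ N]
  rw [integral_map hT.aemeasurable (S2_meas2 L N _ _).aestronglyMeasurable]
  refine integral_congr_ae (Filter.Eventually.of_forall fun f => ?_)
  show tr L (f 0) * tr L (f (proj N false (x.2, x.1)))
    = tr L (f ((0 : Tor N).2, (0 : Tor N).1)) * tr L (f ((proj N false x).2, (proj N false x).1))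
  have h0 : (((0 : Tor N).2, (0 : Tor N).1) : Tor N) = 0 := rfl
  rw [h0, S2_proj_false, S2_proj_false]

theorem dN_pos_def (hρ : EdgeWeight ρ) (hm : 0 < m) {L : ℝ} (hL : 0 ≤ L) (N : ℕ)
    (k : Bool) (A : Finset (ℤ × ℤ)) (a : ℤ × ℤ → ℝ) :
    0 ≤ ∑ x ∈ A, ∑ y ∈ A, a x * a y * dN ρ m L N k (x - y) := by
  have h1 : ∑ x ∈ A, ∑ y ∈ A, a x * a y * dN ρ m L N k (x - y)
      = ∫ f, (∑ x ∈ A, a x * tr L (f (proj N k x))) ^ 2 ∂muT ρ m N k := by
    have h2 : ∀ f : Tor N → ℝ, (∑ x ∈ A, a x * tr L (f (proj N k x))) ^ 2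
        = ∑ x ∈ A, ∑ y ∈ A, a x * a y * (tr L (f (proj N k x)) * tr L (f (proj N k y))) := by
      intro f
      rw [pow_two, Finset.sum_mul_sum]
      refine Finset.sum_congr rfl fun x _ => Finset.sum_congr rfl fun y _ => ?_
      ring
    simp_rw [h2]
    rw [integral_finsetSum _ fun x _ => integrable_finsetSum _ fun y _ =>
      (S2_int2 hρ hm hL N k _ _).const_mul _]
    refine Finset.sum_congr rfl fun x _ => ?_
    rw [integral_finsetSum _ fun y _ => (S2_int2 hρ hm hL N k _ _).const_mul _]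
    refine Finset.sum_congr rfl fun y _ => ?_
    rw [integral_const_mul, dN_two hρ hm hL]
  rw [h1]
  exact integral_nonneg fun f => sq_nonneg _

theorem S2_sq (hρ : EdgeWeight ρ) (hm : 0 < m) {L : ℝ} (hL : 0 ≤ L) (N : ℕ) (k : Bool)
    (x : ℤ × ℤ) :
    Integrable (fun f : Tor N → ℝ => (tr L (f (proj N k x)) - tr L (f 0)) ^ 2) (muT ρ m N k) ∧
    ∫ f, (tr L (f (proj N k x)) - tr L (f 0)) ^ 2 ∂muT ρ m N k
      = 2 * (dN ρ m L N k 0 - dN ρ m L N k x) := by
  have i1 := S2_int2 hρ hm hL N k (proj N k x) (proj N k x)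
  have i2 := S2_int2 hρ hm hL N k 0 (proj N k x)
  have i3 := S2_int2 hρ hm hL N k 0 0
  have h0 : (fun f : Tor N → ℝ => (tr L (f (proj N k x)) - tr L (f 0)) ^ 2)
      = fun f => (tr L (f (proj N k x)) * tr L (f (proj N k x))
        - 2 * (tr L (f 0) * tr L (f (proj N k x)))) + tr L (f 0) * tr L (f 0) := by
    funext f
    ring
  have j1 : Integrable (fun f : Tor N → ℝ => tr L (f (proj N k x)) * tr L (f (proj N k x))
        - 2 * (tr L (f 0) * tr L (f (proj N k x)))) (muT ρ m N k) := i1.sub (i2.const_mul 2)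
  refine ⟨by rw [h0]; exact j1.add i3, ?_⟩
  rw [h0, integral_add j1 i3, integral_sub i1 (i2.const_mul 2), integral_const_mul,
    dN_two hρ hm hL, sub_self]
  have h1 : ∫ f, tr L (f 0) * tr L (f 0) ∂muT ρ m N k = dN ρ m L N k 0 := by
    unfold dN
    rw [proj_zero]
  rw [h1]
  have h2 : ∫ f, tr L (f 0) * tr L (f (proj N k x)) ∂muT ρ m N k = dN ρ m L N k x := rfl
  rw [h2]
  ring

theorem S2_isq (hρ : EdgeWeight ρ) (hm : 0 < m) (N : ℕ) (k : Bool) (x y : Tor N) :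
    Integrable (fun f : Tor N → ℝ => (f x - f y) ^ 2) (muT ρ m N k) := by
  have i1 := (muT_integrable_pow hρ hm N k x 2).const_mul 2
  have i2 := (muT_integrable_pow hρ hm N k y 2).const_mul 2
  refine (i1.add i2).mono' ?_ (Filter.Eventually.of_forall fun f => ?_)
  · exact (((measurable_pi_apply x).sub (measurable_pi_apply y)).pow_const 2).aestronglyMeasurable
  · show ‖(f x - f y) ^ 2‖ ≤ 2 * f x ^ 2 + 2 * f y ^ 2
    rw [Real.norm_eq_abs, abs_of_nonneg (sq_nonneg _)]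
    nlinarith [sq_nonneg (f x + f y)]

/-- truncation decreases increments -/
theorem dN_grad (hρ : EdgeWeight ρ) (hm : 0 < m) {L : ℝ} (hL : 0 ≤ L) (N : ℕ) (k : Bool)
    (x : ℤ × ℤ) : 2 * (dN ρ m L N k 0 - dN ρ m L N k x) ≤
      ∫ f, (f (proj N k x) - f 0) ^ 2 ∂muT ρ m N k := by
  obtain ⟨h1, h2⟩ := S2_sq hρ hm hL N k x
  rw [← h2]
  refine integral_mono h1 (S2_isq hρ hm N k _ _) fun f => ?_
  show (tr L (f (proj N k x)) - tr L (f 0)) ^ 2 ≤ (f (proj N k x) - f 0) ^ 2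
  exact sq_le_sq.2 (S2_tr_lip L _ _)

theorem S2_point {L : ℝ} (hL : 0 < L) (a b : ℝ) :
    (a - b) ^ 2 ≤ (tr L a - tr L b) ^ 2 + (4 / L ^ 4 * a ^ 6 + 4 / L ^ 4 * b ^ 6) := by
  have hL4 : 0 < L ^ 4 := by positivity
  have key : ∀ c : ℝ, L < |c| → c ^ 2 ≤ 1 / L ^ 4 * c ^ 6 := by
    intro c hc
    have h1 : L ^ 4 ≤ c ^ 4 := by
      have h2 : L ^ 4 ≤ |c| ^ 4 := pow_le_pow_left₀ hL.le hc.le 4
      have h3 : |c| ^ 4 = c ^ 4 := by
        rw [show (4 : ℕ) = 2 * 2 by norm_num, pow_mul, pow_mul, sq_abs]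
      rwa [h3] at h2
    have h4 : c ^ 2 * L ^ 4 ≤ c ^ 2 * c ^ 4 := mul_le_mul_of_nonneg_left h1 (sq_nonneg c)
    rw [one_div, ← div_eq_inv_mul, le_div_iff₀ hL4]
    calc c ^ 2 * L ^ 4 ≤ c ^ 2 * c ^ 4 := h4
      _ = c ^ 6 := by ring
  have hid : ∀ c : ℝ, |c| ≤ L → tr L c = c := by
    intro c hc
    rw [abs_le] at hc
    unfold tr
    rw [min_eq_left hc.2, max_eq_right hc.1]
  have ha6 : 0 ≤ 4 / L ^ 4 * a ^ 6 := by positivity
  have hb6 : 0 ≤ 4 / L ^ 4 * b ^ 6 := by positivity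
  have hsq : 0 ≤ (tr L a - tr L b) ^ 2 := sq_nonneg _
  by_cases hab : |a| ≤ L ∧ |b| ≤ L
  · rw [hid a hab.1, hid b hab.2]
    linarith
  · rcases le_total |a| |b| with h | h
    · have hb : L < |b| := by
        by_contra hc
        exact hab ⟨h.trans (not_lt.1 hc), not_lt.1 hc⟩
      have h1 := key b hb
      have h2 : a ^ 2 ≤ b ^ 2 := sq_le_sq.2 h
      have h3 : (a - b) ^ 2 ≤ 4 * b ^ 2 := by nlinarith [sq_nonneg (a + b)]
      have h4 : 4 / L ^ 4 * b ^ 6 = 4 * (1 / L ^ 4 * b ^ 6) := by ring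
      linarith
    · have ha : L < |a| := by
        by_contra hc
        exact hab ⟨not_lt.1 hc, h.trans (not_lt.1 hc)⟩
      have h1 := key a ha
      have h2 : b ^ 2 ≤ a ^ 2 := sq_le_sq.2 h
      have h3 : (a - b) ^ 2 ≤ 4 * a ^ 2 := by nlinarith [sq_nonneg (a + b)]
      have h4 : 4 / L ^ 4 * a ^ 6 = 4 * (1 / L ^ 4 * a ^ 6) := by ring
      linarith

/-- removing the truncation, uniformly in the torus -/
theorem dN_untrunc (hρ : EdgeWeight ρ) (hm : 0 < m) {C : ℝ} (hC : ∀ (N : ℕ) (k : Bool)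
    (x : Tor N), ∫ f, f x ^ 6 ∂muT ρ m N k ≤ C) {L : ℝ} (hL : 0 < L) (N : ℕ) (k : Bool)
    (x : ℤ × ℤ) : ∫ f, (f (proj N k x) - f 0) ^ 2 ∂muT ρ m N k ≤
      2 * (dN ρ m L N k 0 - dN ρ m L N k x) + 8 * C / L ^ 4 := by
  obtain ⟨h1, h2⟩ := S2_sq hρ hm hL.le N k x
  have i1 := (muT_integrable_pow hρ hm N k (proj N k x) 6).const_mul (4 / L ^ 4)
  have i2 := (muT_integrable_pow hρ hm N k 0 6).const_mul (4 / L ^ 4)
  have h3 : ∫ f, (f (proj N k x) - f 0) ^ 2 ∂muT ρ m N k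
      ≤ ∫ f, ((tr L (f (proj N k x)) - tr L (f 0)) ^ 2
        + (4 / L ^ 4 * f (proj N k x) ^ 6 + 4 / L ^ 4 * f 0 ^ 6)) ∂muT ρ m N k :=
    integral_mono (S2_isq hρ hm N k _ _) (h1.add (i1.add i2)) fun f => S2_point hL _ _
  have i3 : Integrable (fun f : Tor N → ℝ => 4 / L ^ 4 * f (proj N k x) ^ 6 + 4 / L ^ 4 * f 0 ^ 6)
      (muT ρ m N k) := i1.add i2
  rw [integral_add h1 i3, integral_add i1 i2, integral_const_mul, integral_const_mul, h2] at h3
  have h4 := hC N k (proj N k x)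
  have h5 := hC N k 0
  have hL4 : 0 ≤ 4 / L ^ 4 := by positivity
  have h6 := mul_le_mul_of_nonneg_left h4 hL4
  have h7 := mul_le_mul_of_nonneg_left h5 hL4
  have h8 : 8 * C / L ^ 4 = 4 / L ^ 4 * C + 4 / L ^ 4 * C := by ring
  rw [h8]
  linarith

end Pool.Agent.HM
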